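import Pool.Agent.E8helper34.SD.App2
import Pool.Agent.Results.MP_65c98c_al.LowDimensionalRigidity
import Pool.Agent.E8helper34.M4.Loc

set_option autoImplicit false

/-! Rigidity of the irreducible representations of dimension at most `2 g`, `g ≥ 13`. -/

namespace Pool.Agent.E8helper34.RG

open Pool.Agent.H29R2.MG Pool.Agent.TH35.MG Pool.Agent.R352.MG Module
open Pool.Agent.R665.MGR (Humphries Invariant act rho rho_def rho_apply chainTwist)
open Pool.Agent.E8helper34.MR (HG tM aM tM_zero aM_coe tM_coe HG_induction humM)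
open Pool.Agent.E8helper34.QA (NRel RRel nrel ww ub uu Vinv Vim N_mem_Vim rrel Nf Ef fixf fix_mem
  equiv_all mem_Vinv X_inv Quad)
open Pool.Agent.Results.MP_65c98c_al.LowDimensionalRigidity

universe u

/-- the representation of the Humphries group -/
noncomputable def rs {g d : ℕ} {K : Type u} [Field K]
    (f : Mod g →* Matrix.GeneralLinearGroup (Fin d) K) : HG g →* Module.End K (Fin d → K) :=
  (rho f).comp (Humphries g).subtype

theorem rs_apply {g d : ℕ} {K : Type u} [Field K]
    (f : Mod g →* Matrix.GeneralLinearGroup (Fin d) K) (x : HG g) (v : Fin d → K) :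
    rs f x v = act f x v := by
  show rho f (x : Mod g) v = _
  rw [rho_apply]

theorem N_ne {g : ℕ} {K V : Type*} [Field K] [AddCommGroup V] [Module K V] (hg : 7 ≤ g)
    (ρ : HG g →* Module.End K V) (hnt : ∃ x, ρ x ≠ 1) : ∃ v, Nf ρ 0 v ≠ 0 := by
  by_contra hcon
  push Not at hcon
  have h0 : ρ (tM g 0) = 1 := by
    apply LinearMap.ext
    intro v
    exact sub_eq_zero.1 (hcon v)
  obtain ⟨x, hx⟩ := hnt
  apply hx
  have hall : ∀ x : HG g, ρ.toHomUnits x = 1 := by
    have h : ρ.toHomUnits (tM g 0) = 1 := Units.ext h0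
    intro x
    have r := humM (g := g) (by omega)
    have br : ∀ x y : HG g, x * y * x = y * x * y → ρ.toHomUnits x = 1 → ρ.toHomUnits y = 1 := by
      intro x y hb hx
      have h1 := congrArg ρ.toHomUnits hb
      simp only [map_mul, hx, one_mul, mul_one] at h1
      exact left_eq_mul.1 h1
    have ht : ∀ j < 2 * g, ρ.toHomUnits (tM g j) = 1 := by
      intro j
      induction j with
      | zero => intro _; exact h
      | succ j ih => intro hj; exact br _ _ (r.braid j hj) (ih (by omega))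
    have he : ρ.toHomUnits (aM g 1) = 1 := br _ _ r.braidE (ht 3 (by omega))
    induction x using HG_induction (g := g) (by omega) with
    | ht j hj => exact ht j hj
    | he => exact he
    | h1 => exact map_one _
    | hmul x y hx hy => rw [map_mul, hx, hy, one_mul]
    | hinv x hx => rw [map_inv, hx, inv_one]
  exact congrArg Units.val (hall x)

theorem rigid_two {g d : ℕ} (hg : 13 ≤ g) (hd : d ≤ 2 * g) (K : Type u) [Field K]
    (ρ : Mod g →* Matrix.GeneralLinearGroup (Fin d) K)
    (hirr : ∀ W : Submodule K (Fin d → K), Invariant ρ W → W = ⊥ ∨ W = ⊤)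
    (hnt : ∃ x ∈ Humphries g, ρ x ≠ 1)
    (c : Mod g → Matrix (Fin d) (Fin d) K) (hc : IsCocycle ρ c) : IsCoboundary ρ c := by
  have hb0 : 4 * g < 4 * (g - 5).choose 2 := by
    rw [← Pool.Agent.E8helper34.M4.bd_eq hg]
    exact Pool.Agent.E8helper34.M4.four_lt hg
  have hb1 : 2 * g < (g - 5).choose 2 := by
    obtain ⟨n, rfl⟩ : ∃ n, g = n + 13 := ⟨g - 13, by omega⟩
    have h : ∀ n : ℕ, 2 * (n + 13) < (n + 8).choose 2 := by
      intro n
      induction n with
      | zero => decide
      | succ n ih =>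
        have h1 : (n + 1 + 8).choose 2 = (n + 8) + (n + 8).choose 2 := by
          rw [show n + 1 + 8 = (n + 8) + 1 by ring, Nat.choose_succ_succ' (n + 8) 1,
            Nat.choose_one_right]
        omega
    have h2 := h n
    rw [show n + 13 - 5 = n + 8 by omega]
    exact h2
  have hdim : d = g + g := dims (by omega) ρ hirr hnt
  set f := ext hc with hf
  have hntv : ∃ x : HG g, rs ρ x ≠ 1 := by
    obtain ⟨x, hx, hne⟩ := hnt
    refine ⟨⟨x, hx⟩, fun h => hne ?_⟩
    apply Units.ext
    apply (Matrix.toLinAlgEquiv' (R := K) (n := Fin d)).injective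
    rw [← rho_def, Units.val_one, map_one]
    exact h
  have hqρ : Quad (rs ρ) := by
    have h4 := Pool.Agent.E8helper34.M4.prod_zero (g := g) (K := K) (V := Fin d → K) (by
      rw [Module.finrank_fin_fun, Pool.Agent.E8helper34.M4.bd_eq hg]
      omega) (rs ρ)
    exact ⟨h4.1, h4.2⟩
  have hqf : Quad (rs f) := by
    have h4 := Pool.Agent.E8helper34.M4.prod_zero (g := g) (K := K) (V := Fin (d + d) → K) (by
      rw [Module.finrank_fin_fun, Pool.Agent.E8helper34.M4.bd_eq hg]
      omega) (rs f)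
    exact ⟨h4.1, h4.2⟩
  have hr1 : NRel (2 * g) (Nf (rs ρ)) (Ef (rs ρ)) :=
    nrel (humM (by omega)) (by omega) (rs ρ) hqρ.h0 hqρ.h1
  have hr2 : NRel (2 * g) (Nf (rs f)) (Ef (rs f)) :=
    nrel (humM (by omega)) (by omega) (rs f) hqf.h0 hqf.h1
  -- no invariants in `V`
  have hfixρ : ∀ v, (∀ x : HG g, rs ρ x v = v) → v = 0 := by
    have hW : Vinv (2 * g) (Nf (rs ρ)) (Ef (rs ρ)) = ⊥ := by
      rcases hirr (Vinv (2 * g) (Nf (rs ρ)) (Ef (rs ρ))) (by
        intro x hx v hv
        have := fixf (rs ρ) (by omega) ⟨x, hx⟩ v hv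
        rw [rs_apply] at this
        rw [this]
        exact hv) with h | h
      · exact h
      · exfalso
        obtain ⟨x, hx⟩ := hntv
        apply hx
        apply LinearMap.ext
        intro v
        exact fixf (rs ρ) (by omega) x v (h ▸ Submodule.mem_top)
    intro v hv
    have := fix_mem (rs ρ) hv
    rwa [hW, Submodule.mem_bot] at this
  have hVρ : Vinv (2 * g) (Nf (rs ρ)) (Ef (rs ρ)) = ⊥ := by
    rw [eq_bot_iff]
    intro v hv
    rw [Submodule.mem_bot]
    exact hfixρ v (fun x => fixf (rs ρ) (by omega) x v hv)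
  have hbot : ∀ (x : HG g) (v : Fin (d + d) → K), bot d K (rs f x v) = rs ρ x (bot d K v) := by
    intro x v
    rw [rs_apply, rs_apply]
    exact (act_ext hc x v).2
  have htop : ∀ (x : HG g) (v : Fin (d + d) → K), bot d K v = 0 →
      top d K (rs f x v) = rs ρ x (top d K v) := by
    intro x v hv
    rw [rs_apply, rs_apply, (act_ext hc x v).1, hv, Matrix.mulVec_zero, add_zero]
  have hVf : Vinv (2 * g) (Nf (rs f)) (Ef (rs f)) = ⊥ := by
    rw [eq_bot_iff]
    intro v hv
    have hv' := fun x => fixf (rs f) (by omega) x v hv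
    have hb : bot d K v = 0 := hfixρ _ fun x => by rw [← hbot, hv']
    have ht : top d K v = 0 := hfixρ _ fun x => by rw [← htop _ _ hb, hv']
    exact (Submodule.mem_bot K).2 (vec_zero ht hb)
  obtain ⟨u0, hu0⟩ := N_ne (by omega) (rs ρ) hntv
  -- the lift
  obtain ⟨v0, hv0⟩ : ∃ v0 : Fin (d + d) → K, bot d K v0 = u0 := by
    refine ⟨fun k => (Sum.elim (0 : Fin d → K) u0 : Fin d ⊕ Fin d → K) (finSumFinEquiv.symm k), ?_⟩
    funext i
    show (Sum.elim (0 : Fin d → K) u0 : Fin d ⊕ Fin d → K)
      (finSumFinEquiv.symm (finSumFinEquiv (Sum.inr i))) = _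
    rw [Equiv.symm_apply_apply]
    rfl
  have hbotN : ∀ (j : ℕ) (v : Fin (d + d) → K), bot d K (Nf (rs f) j v) =
      Nf (rs ρ) j (bot d K v) := by
    intro j v
    show bot d K (rs f (tM g j) v - v) = rs ρ (tM g j) (bot d K v) - bot d K v
    rw [map_sub, hbot]
  obtain ⟨y, hy, hyb⟩ : ∃ y ∈ Vim (2 * g) (Nf (rs f)) (Ef (rs f)),
      bot d K y = - Nf (rs ρ) 1 (Nf (rs ρ) 0 u0) := by
    refine ⟨- Nf (rs f) 1 (Nf (rs f) 0 v0), ?_, ?_⟩
    · exact Submodule.neg_mem _ (N_mem_Vim (by omega) _)
    · rw [map_neg, hbotN, hbotN, hv0]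
  have r := rrel hr2 (by omega) hy
  rw [hVf] at r
  set w := ww (Nf (rs f)) y with hw
  set S := Submodule.span K (Set.range (ub g w)) with hS
  have hubS : ∀ k, ub g w k ∈ S := fun k => Submodule.subset_span ⟨k, rfl⟩
  have hSinv : ∀ x ∈ Humphries g, ∀ v ∈ S, act f x v ∈ S := by
    intro x hx v hv
    obtain ⟨φ, -, h1⟩ := equiv_all (rs f) (by omega) (W1 := ⊥) (by
      intro z v hv
      rw [(Submodule.mem_bot K).1 hv, map_zero]
      exact Submodule.zero_mem _) r ⟨x, hx⟩
    have hle : S ≤ S.comap (rs f ⟨x, hx⟩) := by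
      refine Submodule.span_le.2 ?_
      rintro a ⟨k, rfl⟩
      have h2 := (Submodule.mem_bot K).1 (h1 (gen k))
      rw [sub_eq_zero] at h2
      have h3 : ∑ j, (homologyClass (gen k : SurfaceGroup g) j : K) • ub g w j = ub g w k := by
        rw [Pool.Agent.E8helper34.MR.hc_gen, Finset.sum_eq_single k]
        · simp
        · intro j _ hj
          rw [Pi.single_eq_of_ne hj]
          simp
        · intro hx; exact absurd (Finset.mem_univ _) hx
      rw [h3] at h2
      show rs f ⟨x, hx⟩ (ub g w k) ∈ S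
      rw [h2]
      exact Submodule.sum_mem _ fun i _ => Submodule.smul_mem _ _ (hubS i)
    have h4 := hle hv
    rw [Submodule.mem_comap, rs_apply] at h4
    exact h4
  have hmap : S.map (bot d K) = ⊤ := by
    rcases hirr (S.map (bot d K)) (by
      rintro x hx _ ⟨v, hv, rfl⟩
      exact ⟨act f x v, hSinv x hx v hv, (act_ext hc x v).2⟩) with h | h
    · exfalso
      have h1 : bot d K (ub g w (Sum.inl ⟨0, by omega⟩)) ∈ S.map (bot d K) :=
        ⟨_, hubS _, rfl⟩
      have h2 : ub g w (Sum.inl ⟨0, by omega⟩) = Nf (rs f) 0 y := rfl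
      rw [h, Submodule.mem_bot, h2, hbotN, hyb] at h1
      have h3 := X_inv hr1 (by omega) (j := 0) (by omega) u0
      rw [hVρ, Submodule.mem_bot] at h3
      apply hu0
      rw [map_neg, neg_eq_zero] at h1
      rw [show 0 + 1 = 1 from rfl, h1, add_zero] at h3
      exact h3
    · exact h
  -- the section
  set F : S →ₗ[K] (Fin d → K) := (bot d K).domRestrict S with hF
  have hsurj : Function.Surjective F := by
    intro v
    have hv : v ∈ S.map (bot d K) := hmap ▸ Submodule.mem_top
    obtain ⟨a, ha, rfl⟩ := hv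
    exact ⟨⟨a, ha⟩, rfl⟩
  have hinj : Function.Injective F := by
    have h1 := LinearMap.finrank_range_add_finrank_ker F
    rw [LinearMap.range_eq_top.2 hsurj, finrank_top, Module.finrank_fin_fun] at h1
    have h2 : finrank K S ≤ Fintype.card (Fin g ⊕ Fin g) := finrank_range_le_card (ub g w)
    rw [Fintype.card_sum, Fintype.card_fin] at h2
    rw [← LinearMap.ker_eq_bot]
    apply Submodule.finrank_eq_zero.1
    omega
  set e := LinearEquiv.ofBijective F ⟨hinj, hsurj⟩ with he
  set s : (Fin d → K) →ₗ[K] (Fin (d + d) → K) := S.subtype.comp e.symm.toLinearMap with hs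
  have hs1 : ∀ v, s v ∈ S := fun v => (e.symm v).2
  have hs2 : ∀ v, bot d K (s v) = v := fun v => e.apply_symm_apply v
  have huniq : ∀ a ∈ S, a = s (bot d K a) := by
    intro a ha
    have h1 : F ⟨a, ha⟩ = F (e.symm (bot d K a)) := (hs2 (bot d K a)).symm
    exact congrArg Subtype.val (hinj h1)
  set A := LinearMap.toMatrix' ((top d K).comp s) with hA
  have hAv : ∀ v, A.mulVec v = top d K (s v) := by
    intro v
    rw [hA, ← Matrix.toLin'_apply, Matrix.toLin'_toMatrix']
    rfl
  refine ⟨-A, ?_⟩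
  intro x hx
  have hm : (ρ x : Matrix (Fin d) (Fin d) K) * A + c x * (ρ x : Matrix (Fin d) (Fin d) K) =
      A * (ρ x : Matrix (Fin d) (Fin d) K) := by
    apply Matrix.mulVec_injective
    funext v
    have h1 := act_ext hc x (s v)
    have h2 := huniq _ (hSinv x hx _ (hs1 v))
    rw [h1.2, hs2] at h2
    have h3 := h1.1
    rw [h2, hs2] at h3
    rw [Matrix.add_mulVec, ← Matrix.mulVec_mulVec, ← Matrix.mulVec_mulVec _ A, hAv, hAv]
    exact h3.symm
  have hu1 : (ρ x).1 * ((ρ x)⁻¹ : Matrix.GeneralLinearGroup (Fin d) K).1 = 1 := Units.mul_inv _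
  have e1 : c x = (A * (ρ x).1 - (ρ x).1 * A) *
      ((ρ x)⁻¹ : Matrix.GeneralLinearGroup (Fin d) K).1 := by
    rw [← hm, add_sub_cancel_left, mul_assoc, hu1, mul_one]
  rw [e1, sub_mul, mul_assoc, hu1, mul_one]
  noncomm_ring

end Pool.Agent.E8helper34.RG
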